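import Pool.Agent.R218.GEq.Final

/-!
# A three-dimensional shear flow for which curvature increases the burning velocity
-/

namespace Pool.Agent.Results.MP_d0383e_an.CurvatureSpeedsUp

open Set Filter Topology Pool.Agent.R218.GEq

lemma vals (ε : ℝ) : vX ε 0 0 = 0 ∧ vY ε 0 0 = 0 ∧ vX ε (1 / 2) 0 = 0 ∧ vY ε (1 / 2) 0 = 0 ∧
    vXX ε 0 0 = -(2 * Real.pi * ε * 2) ∧ vXY ε 0 0 = -(2 * Real.pi * ε) ∧
    vYY ε 0 0 = -(2 * Real.pi * ε * 2) ∧
    vXX ε (1 / 2) 0 = 2 * Real.pi * ε * 2 ∧ vXY ε (1 / 2) 0 = 2 * Real.pi * ε ∧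
    vYY ε (1 / 2) 0 = 0 := by
  have hpi := Real.pi_pos.ne'
  have e1 : 2 * Real.pi * (1 / 2) = Real.pi := by ring
  refine ⟨?_, ?_, ?_, ?_, ?_, ?_, ?_, ?_, ?_, ?_⟩
  · rw [vX_eq]; simp [fx, SN, dX, L0]
  · rw [vY_eq]; simp [fy, SN, dY, L0]
  · rw [vX_eq, e1]; simp [fx, SN, dX, L0]
  · rw [vY_eq, e1]; simp [fy, SN, dY, L0]
  · unfold vXX lv
    rw [dX_scl, dX_scl, CS_scl]
    simp [CS, dX, L0]
    field_simp
    ring
  · unfold vXY lv
    rw [dY_scl, dX_scl, CS_scl]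
    simp [CS, dX, dY, L0]
    field_simp
  · unfold vYY lv
    rw [dY_scl, dY_scl, CS_scl]
    simp [CS, dY, L0]
    field_simp
    ring
  · unfold vXX lv
    rw [dX_scl, dX_scl, CS_scl, e1]
    simp [CS, dX, L0]
    field_simp
    ring
  · unfold vXY lv
    rw [dY_scl, dX_scl, CS_scl, e1]
    simp [CS, dX, dY, L0]
    field_simp
  · unfold vYY lv
    rw [dY_scl, dY_scl, CS_scl, e1]
    simp [CS, dY, L0]

lemma wv_vals (ε : ℝ) : wv ε 0 0 = 1 ∧ wv ε (1 / 2) 0 = 1 := by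
  obtain ⟨h1, h2, h3, h4, -⟩ := vals ε
  have a := wv_sq ε 0 0
  have b := wv_sq ε (1 / 2) 0
  have a' := wv_ge ε 0 0
  have b' := wv_ge ε (1 / 2) 0
  rw [h1, h2] at a
  rw [h3, h4] at b
  norm_num at a b
  constructor
  · rcases a with h | h
    · exact h
    · linarith
  · rcases b with h | h
    · exact h
    · linarith

lemma cv_vals (ε : ℝ) : cv ε 0 0 = -(2 * Real.pi * ε * (92 / 49)) ∧
    cv ε (1 / 2) 0 = 2 * Real.pi * ε * (2 / 49) := by
  obtain ⟨h1, h2, h3, h4, h5, h6, h7, h8, h9, h10⟩ := vals ε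
  obtain ⟨w1, w2⟩ := wv_vals ε
  unfold cv
  rw [h1, h2, h3, h4, h5, h6, h7, h8, h9, h10, w1, w2]
  constructor <;> ring

/-- **Main theorem.** There are a Lipschitz `ℤ²`-periodic non-constant `f`, `d > 0`, `A > 0` and a
unit vector `P` with `P₃ ≠ 0` such that the effective burning velocity for the Markstein number
`d` exists and is strictly larger than the one for `d = 0`. -/
theorem result : ∃ (f : ℝ → ℝ → ℝ) (d A : ℝ) (P : V3) (c : ℝ),
    (∃ K, LipschitzWith K (fun p : ℝ × ℝ => f p.1 p.2)) ∧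
    (∀ x y, f (x + 1) y = f x y ∧ f x (y + 1) = f x y) ∧
    (∃ x y x' y', f x y ≠ f x' y') ∧
    0 < d ∧ 0 < A ∧ nrm P = 1 ∧ P 2 ≠ 0 ∧
    (∀ G, ViscSol d A f P G → HasSpeed P G c) ∧
    (∀ G₀ c₀, ViscSol 0 A f P G₀ → HasSpeed P G₀ c₀ → c₀ < c) := by
  obtain ⟨ε, η, hε, hε1, hη, hkey⟩ := key_ineq
  have hpi := Real.pi_pos
  have κ0 : 0 < 2 * Real.pi := by positivity
  -- bounds
  obtain ⟨Cc, hCc0, hCc⟩ := bdd2 (contDiff_cv ε).continuous (fun x y => (wcv_per ε x y).1.2)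
    (fun x y => (wcv_per ε x y).2.2)
  obtain ⟨W0, hW00, hW0⟩ := bdd2 (contDiff_wv ε).continuous (fun x y => (wcv_per ε x y).1.1)
    (fun x y => (wcv_per ε x y).2.1)
  have hKK : 0 ≤ KK ε := (abs_nonneg _).trans ((prof_lv ε).bv 0 0)
  obtain ⟨NZ, hNZ⟩ : ∃ NZ, NZ = nm (dX L1) + nm (dX L2) + nm (dX L3) + nm (dY L1) + nm (dY L2)
    + nm (dY L3) := ⟨_, rfl⟩
  have nn1 := nm_nonneg (dX L1)
  have nn2 := nm_nonneg (dX L2)
  have nn3 := nm_nonneg (dX L3)
  have nn4 := nm_nonneg (dY L1)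
  have nn5 := nm_nonneg (dY L2)
  have nn6 := nm_nonneg (dY L3)
  have hNZ0 : 0 ≤ NZ := by rw [hNZ]; positivity
  have hε2 : ε ^ 2 ≤ 1 := pow_le_one₀ hε.le hε1
  have hε3 : ε ^ 3 ≤ 1 := pow_le_one₀ hε.le hε1
  have aux : ∀ a b c A B C : ℝ, |a| ≤ A → |b| ≤ B → |c| ≤ C →
      |ε * a + ε ^ 2 * b + ε ^ 3 * c| ≤ A + B + C := by
    intro a b c A B C ha hb hc
    have h1 : |ε * a| ≤ A := by
      rw [abs_mul, abs_of_pos hε]
      have := mul_le_mul hε1 ha (abs_nonneg _) zero_le_one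
      linarith
    have h2 : |ε ^ 2 * b| ≤ B := by
      rw [abs_mul, abs_of_nonneg (sq_nonneg ε)]
      have := mul_le_mul hε2 hb (abs_nonneg _) zero_le_one
      linarith
    have h3 : |ε ^ 3 * c| ≤ C := by
      rw [abs_mul, abs_of_nonneg (by positivity)]
      have := mul_le_mul hε3 hc (abs_nonneg _) zero_le_one
      linarith
    exact (abs_add_le _ _).trans (add_le_add ((abs_add_le _ _).trans (add_le_add h1 h2)) h3)
  have hZx : ∀ x y, |Zx ε x y| ≤ NZ := by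
    intro x y
    unfold Zx z1x z2x z3x
    have hS : |(-SN (dX L2) x y)| ≤ nm (dX L2) := by rw [abs_neg]; exact abs_SN_le _ _ _
    have := aux (CS (dX L1) x y) (-SN (dX L2) x y) (CS (dX L3) x y) _ _ _ (abs_CS_le _ _ _)
      hS (abs_CS_le _ _ _)
    rw [hNZ]
    linarith
  have hZy : ∀ x y, |Zy ε x y| ≤ NZ := by
    intro x y
    unfold Zy z1y z2y z3y
    have hS : |(-SN (dY L2) x y)| ≤ nm (dY L2) := by rw [abs_neg]; exact abs_SN_le _ _ _
    have := aux (CS (dY L1) x y) (-SN (dY L2) x y) (CS (dY L3) x y) _ _ _ (abs_CS_le _ _ _)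
      hS (abs_CS_le _ _ _)
    rw [hNZ]
    linarith
  have hwpos : ∀ x y, 0 < wv ε x y := fun x y => by linarith [wv_ge ε x y]
  have hq0 : ∀ x y, |(6 / 7 + vX ε x y) / wv ε x y| ≤ 1 := by
    intro x y
    rw [abs_div, abs_of_pos (hwpos x y), div_le_one (hwpos x y)]
    apply abs_le_of_sq_le_sq _ (hwpos x y).le
    rw [wv_sq]
    nlinarith [sq_nonneg (2 / 7 + vY ε x y)]
  have hq1 : ∀ x y, |(2 / 7 + vY ε x y) / wv ε x y| ≤ 1 := by
    intro x y
    rw [abs_div, abs_of_pos (hwpos x y), div_le_one (hwpos x y)]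
    apply abs_le_of_sq_le_sq _ (hwpos x y).le
    rw [wv_sq]
    nlinarith [sq_nonneg (6 / 7 + vX ε x y)]
  obtain ⟨E, hE⟩ : ∃ E, E = 2 * Real.pi * NZ + 2 * KK ε := ⟨_, rfl⟩
  have hE0 : 0 ≤ E := by rw [hE]; positivity
  have hD0 : ∀ x y, |DD0 ε x y| ≤ E := by
    intro x y
    unfold DD0
    have e : ((6 / 7 + vX ε x y) * vXX ε x y + (2 / 7 + vY ε x y) * vXY ε x y) / wv ε x y =
        (6 / 7 + vX ε x y) / wv ε x y * vXX ε x y + (2 / 7 + vY ε x y) / wv ε x y * vXY ε x y := by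
      have := (hwpos x y).ne'
      field_simp
    rw [e]
    refine (abs_add_le _ _).trans ?_
    have t1 : |2 * Real.pi * Zx ε (2 * Real.pi * x) (2 * Real.pi * y)| ≤ 2 * Real.pi * NZ := by
      rw [abs_mul, abs_of_pos κ0]
      exact mul_le_mul_of_nonneg_left (hZx _ _) κ0.le
    have t2 : |(6 / 7 + vX ε x y) / wv ε x y * vXX ε x y| ≤ 1 * KK ε := by
      rw [abs_mul]
      exact mul_le_mul (hq0 x y) ((prof_lv ε).bxx x y) (abs_nonneg _) zero_le_one
    have t3 : |(2 / 7 + vY ε x y) / wv ε x y * vXY ε x y| ≤ 1 * KK ε := by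
      rw [abs_mul]
      exact mul_le_mul (hq1 x y) ((prof_lv ε).bxy x y) (abs_nonneg _) zero_le_one
    have t4 := abs_add_le ((6 / 7 + vX ε x y) / wv ε x y * vXX ε x y)
      ((2 / 7 + vY ε x y) / wv ε x y * vXY ε x y)
    rw [hE]
    linarith
  have hD1 : ∀ x y, |DD1 ε x y| ≤ E := by
    intro x y
    unfold DD1
    have e : ((6 / 7 + vX ε x y) * vXY ε x y + (2 / 7 + vY ε x y) * vYY ε x y) / wv ε x y =
        (6 / 7 + vX ε x y) / wv ε x y * vXY ε x y + (2 / 7 + vY ε x y) / wv ε x y * vYY ε x y := by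
      have := (hwpos x y).ne'
      field_simp
    rw [e]
    refine (abs_add_le _ _).trans ?_
    have t1 : |2 * Real.pi * Zy ε (2 * Real.pi * x) (2 * Real.pi * y)| ≤ 2 * Real.pi * NZ := by
      rw [abs_mul, abs_of_pos κ0]
      exact mul_le_mul_of_nonneg_left (hZy _ _) κ0.le
    have t2 : |(6 / 7 + vX ε x y) / wv ε x y * vXY ε x y| ≤ 1 * KK ε := by
      rw [abs_mul]
      exact mul_le_mul (hq0 x y) ((prof_lv ε).bxy x y) (abs_nonneg _) zero_le_one
    have t3 : |(2 / 7 + vY ε x y) / wv ε x y * vYY ε x y| ≤ 1 * KK ε := by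
      rw [abs_mul]
      exact mul_le_mul (hq1 x y) ((prof_lv ε).byy x y) (abs_nonneg _) zero_le_one
    have t4 := abs_add_le ((6 / 7 + vX ε x y) / wv ε x y * vXY ε x y)
      ((2 / 7 + vY ε x y) / wv ε x y * vYY ε x y)
    rw [hE]
    linarith
  have hDm : ∀ x y, DD0 ε x y ^ 2 + DD1 ε x y ^ 2 ≤ 2 * E ^ 2 := by
    intro x y
    have t1 := sq_le_sq' (abs_le.mp (hD0 x y)).1 (abs_le.mp (hD0 x y)).2
    have t2 := sq_le_sq' (abs_le.mp (hD1 x y)).1 (abs_le.mp (hD1 x y)).2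
    linarith
  -- choice of the constants
  obtain ⟨W, hW⟩ : ∃ W, W = W0 + 1 := ⟨_, rfl⟩
  have hW1 : 1 ≤ W := by linarith
  obtain ⟨d, hd⟩ : ∃ d : ℝ, d = min (1 / (7 * (Cc + 1))) (min (2 * Real.pi * η / (2 * E ^ 2 + 1))
    (1 / (7 * (2 * Real.pi * η + 1)))) := ⟨_, rfl⟩
  have hκη : 0 < 2 * Real.pi * η := by positivity
  have hd0 : 0 < d := by
    rw [hd]
    positivity
  have hda : d * Cc ≤ 1 / 7 := by
    have h1 : d ≤ 1 / (7 * (Cc + 1)) := by rw [hd]; exact min_le_left _ _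
    have h2 : d * (Cc + 1) ≤ 1 / (7 * (Cc + 1)) * (Cc + 1) :=
      mul_le_mul_of_nonneg_right h1 (by positivity)
    have h3 : 1 / (7 * (Cc + 1)) * (Cc + 1) = 1 / 7 := by field_simp
    rw [h3] at h2
    nlinarith
  have hdb : d * (2 * E ^ 2) ≤ 2 * Real.pi * η := by
    have h1 : d ≤ 2 * Real.pi * η / (2 * E ^ 2 + 1) := by
      rw [hd]; exact (min_le_right _ _).trans (min_le_left _ _)
    rw [le_div_iff₀ (by positivity)] at h1
    nlinarith
  have hdc : d * (2 * Real.pi * η) ≤ 1 / 7 := by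
    have h1 : d ≤ 1 / (7 * (2 * Real.pi * η + 1)) := by
      rw [hd]; exact (min_le_right _ _).trans (min_le_right _ _)
    rw [le_div_iff₀ (by positivity)] at h1
    nlinarith
  obtain ⟨δ, hδ⟩ : ∃ δ, δ = d * (2 * Real.pi) * η / (2 * W) := ⟨_, rfl⟩
  have hδ0 : 0 < δ := by rw [hδ]; positivity
  have hδ1 : δ ≤ 1 / 7 := by
    rw [hδ, div_le_iff₀ (by positivity)]
    nlinarith
  have hcv : ∀ x y, d * cv ε x y ≤ 1 / 7 ∧ -(1 / 7) ≤ d * cv ε x y := by
    intro x y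
    have h1 : |d * cv ε x y| ≤ d * Cc := by
      rw [abs_mul, abs_of_pos hd0]
      exact mul_le_mul_of_nonneg_left (hCc x y) hd0.le
    have h2 := abs_le.mp (h1.trans hda)
    exact ⟨h2.2, h2.1⟩
  -- the flow
  obtain ⟨f, hf⟩ : ∃ f : ℝ → ℝ → ℝ, f = fun x y => 7 / 3 * (1 - (wv ε x y - d * cv ε x y)) :=
    ⟨_, rfl⟩
  have hP2 : PP 2 = 3 / 7 := rfl
  have hfP : ∀ x y, 1 * f x y * PP 2 = 1 - (wv ε x y - d * cv ε x y) := by
    intro x y
    rw [hP2, hf]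
    ring
  have hfF : ∀ x y, |f x y| ≤ 7 / 3 * (2 + W0) := by
    intro x y
    rw [hf]
    simp only
    rw [abs_mul, abs_of_pos (by norm_num : (0:ℝ) < 7 / 3)]
    apply mul_le_mul_of_nonneg_left _ (by norm_num)
    have h1 := hcv x y
    have h2 := abs_le.mp (hW0 x y)
    rw [abs_le]
    constructor <;> linarith [h1.1, h1.2, h2.1, h2.2]
  have hfper : ∀ x y, f (x + 1) y = f x y ∧ f x (y + 1) = f x y := by
    intro x y
    have h := wcv_per ε x y
    rw [hf]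
    simp only
    rw [h.1.1, h.1.2, h.2.1, h.2.2]
    exact ⟨rfl, rfl⟩
  have hPn : nrm PP = 1 := by
    have h := nrm_sq PP
    have h0 := nrm_nonneg PP
    have e : PP 0 ^ 2 + PP 1 ^ 2 + PP 2 ^ 2 = 1 := by
      have a0 : PP 0 = 6 / 7 := rfl
      have a1 : PP 1 = 2 / 7 := rfl
      rw [a0, a1, hP2]
      norm_num
    rw [e] at h
    nlinarith
  refine ⟨f, d, 1, PP, 1, ?_, hfper, ?_, hd0, one_pos, hPn, by rw [hP2]; norm_num, ?_, ?_⟩
  · -- Lipschitz
    apply lipschitz_of_periodic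
    · rw [hf]
      have h1 := (contDiff_wv ε).of_le (show (1 : WithTop ℕ∞) ≤ 2 by norm_num)
      have h2 := (contDiff_cv ε).of_le (show (1 : WithTop ℕ∞) ≤ 2 by norm_num)
      fun_prop
    · intro p
      exact (hfper p.1 p.2).1
    · intro p
      exact (hfper p.1 p.2).2
  · -- non-constant
    refine ⟨0, 0, 1 / 2, 0, ?_⟩
    rw [hf]
    simp only
    obtain ⟨w1, w2⟩ := wv_vals ε
    obtain ⟨c1, c2⟩ := cv_vals ε
    rw [w1, w2, c1, c2]
    have : 0 < d * (2 * Real.pi * ε) := by positivity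
    intro h
    nlinarith
  · -- the speed for `d > 0`
    intro G hG
    have hcell : ∀ x y, -1 + max (zz (prof_lv ε) d PP x y) 0 + 1 * f x y * PP 2 = 0 := by
      intro x y
      rw [hfP, zz_eq]
      have h1 := hcv x y
      have h2 := wv_ge ε x y
      rw [max_eq_left (by linarith [h1.1])]
      ring
    exact speed_exact (prof_lv ε) hd0.le zero_le_one hKK (by norm_num : (0:ℝ) < 3 / 7)
      (fun x y => wv_ge ε x y) hfF hcell hG
  · -- the speed for `d = 0`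
    intro G₀ c₀ hG₀ hc₀
    obtain ⟨CV, hCV⟩ : ∃ C, ∀ x y, |V0 ε d x y| ≤ C := by
      refine ⟨nm (lv ε) + d * (nm (scl ε (2 * Real.pi) L1) + nm (scl (ε ^ 2) (2 * Real.pi) L2)
        + nm (scl (ε ^ 3) (2 * Real.pi) L3) + W0), fun x y => ?_⟩
      unfold V0 Zt
      refine (abs_add_le _ _).trans (add_le_add (abs_CS_le _ _ _) ?_)
      rw [abs_mul, abs_of_pos hd0]
      apply mul_le_mul_of_nonneg_left _ hd0.le
      refine (abs_add_le _ _).trans (add_le_add ?_ (hW0 x y))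
      refine (abs_add_le _ _).trans (add_le_add ?_ (abs_SN_le _ _ _))
      exact (abs_add_le _ _).trans (add_le_add (abs_SN_le _ _ _) (abs_CS_le _ _ _))
    have hsub : ∀ x y, -(1 - δ) + nrm ![PP 0 + (vX ε x y + d * DD0 ε x y),
        PP 1 + (vY ε x y + d * DD1 ε x y), PP 2] + 1 * f x y * PP 2 ≤ 0 := by
      intro x y
      rw [hfP]
      have h1 := hcv x y
      have h2 := wv_ge ε x y
      have hT : 0 ≤ wv ε x y - d * cv ε x y - δ := by linarith [h1.1]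
      have hk := hkey (2 * Real.pi * x) (2 * Real.pi * y)
      have h3 := core3 (q0 := 6 / 7 + vX ε x y) (q1 := 2 / 7 + vY ε x y) (w := wv ε x y)
        (D0 := DD0 ε x y) (D1 := DD1 ε x y) (zx := Zx ε (2 * Real.pi * x) (2 * Real.pi * y))
        (zy := Zy ε (2 * Real.pi * x) (2 * Real.pi * y)) (m00 := vXX ε x y) (m01 := vXY ε x y)
        (m11 := vYY ε x y) (lap := ε * lp (2 * Real.pi * x) (2 * Real.pi * y))
        (κ := 2 * Real.pi) (η := η) (d := d) (W := W) (Dm := 2 * E ^ 2) (δ := δ) (c := cv ε x y)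
        hd0 κ0 hη (wv_sq ε x y) h2
        (by have := (abs_le.mp (hW0 x y)).2; linarith) rfl rfl rfl (vLap_eq ε x y)
        (by rw [vX_eq, vY_eq, wv_eq]; exact hk) (hDm x y) hdb hδ hT
      have h4 : nrm ![PP 0 + (vX ε x y + d * DD0 ε x y), PP 1 + (vY ε x y + d * DD1 ε x y), PP 2] =
          Real.sqrt ((6 / 7 + vX ε x y + d * DD0 ε x y) ^ 2
            + (2 / 7 + vY ε x y + d * DD1 ε x y) ^ 2 + (3 / 7) ^ 2) := by
        unfold nrm
        simp [PP, add_assoc]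
      rw [h4]
      linarith
    have h := speed_le (contDiff_V0 ε d) (V0_x ε d) (V0_y ε d) hCV zero_le_one hfF hsub hG₀ hc₀
    linarith

end Pool.Agent.Results.MP_d0383e_an.CurvatureSpeedsUp
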